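import Pool.Agent.Q170.WD.St

set_option autoImplicit false

namespace Pool.Agent.Q137.WD

open MvPolynomial
open Pool.Agent.Q170.WD

variable {L : Type} [Field L]

/-- substitution by polynomials of degree at most one does not increase the total degree -/
theorem totalDegree_aeval_le {M N : ℕ} (g : Fin M → MvPolynomial (Fin N) L)
    (hg : ∀ i, (g i).totalDegree ≤ 1) (f : MvPolynomial (Fin M) L) :
    (MvPolynomial.aeval g f).totalDegree ≤ f.totalDegree := by
  rw [MvPolynomial.aeval_def, MvPolynomial.eval₂_eq']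
  refine (MvPolynomial.totalDegree_finsetSum _ _).trans ?_
  refine Finset.sup_le fun m hm => ?_
  refine (MvPolynomial.totalDegree_mul _ _).trans ?_
  have h1 : ((algebraMap L (MvPolynomial (Fin N) L)) (MvPolynomial.coeff m f)).totalDegree = 0 := by
    rw [MvPolynomial.algebraMap_eq]
    exact MvPolynomial.totalDegree_C _
  rw [h1, zero_add]
  refine (MvPolynomial.totalDegree_finsetProd _ _).trans ?_
  have h2 : ∑ i : Fin M, (g i ^ m i).totalDegree ≤ ∑ i : Fin M, m i := by
    refine Finset.sum_le_sum fun i _ => ?_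
    refine (MvPolynomial.totalDegree_pow _ _).trans ?_
    calc m i * (g i).totalDegree ≤ m i * 1 := Nat.mul_le_mul_left _ (hg i)
      _ = m i := mul_one _
  refine h2.trans ?_
  have h3 := MvPolynomial.le_totalDegree hm
  have h4 : (m.sum fun _ e => e) = ∑ i : Fin M, m i := by
    rw [Finsupp.sum_fintype]
    intro i; rfl
  rw [← h4]
  exact h3

/-- the Hilbert function of a contraction -/
theorem hilb_comap_le {M N : ℕ} (ψ : MvPolynomial (Fin M) L →ₐ[L] MvPolynomial (Fin N) L)
    (hψ : ∀ f, (ψ f).totalDegree ≤ f.totalDegree) (I : Ideal (MvPolynomial (Fin N) L)) (t : ℕ) :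
    hilb (I.comap ψ) t ≤ hilb I t := by
  have hle : I.comap ψ ≤ I.comap ψ := le_refl _
  let χ : (MvPolynomial (Fin M) L ⧸ I.comap ψ) →ₐ[L] (MvPolynomial (Fin N) L ⧸ I) :=
    Ideal.quotientMapₐ I ψ hle
  have hχ : Function.Injective χ := by
    have := Ideal.quotientMap_injective (I := I) (f := (ψ : MvPolynomial (Fin M) L →+* MvPolynomial (Fin N) L))
    exact this
  unfold hilb
  have h1 : Module.finrank L (((restrictTotalDegree (Fin M) L t).map
      (Ideal.Quotient.mkₐ L (I.comap ψ)).toLinearMap).map χ.toLinearMap) =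
      Module.finrank L ((restrictTotalDegree (Fin M) L t).map
        (Ideal.Quotient.mkₐ L (I.comap ψ)).toLinearMap) :=
    ((Submodule.equivMapOfInjective χ.toLinearMap hχ _).finrank_eq).symm
  rw [← h1]
  apply Submodule.finrank_mono
  rintro _ ⟨_, ⟨f, hf, rfl⟩, rfl⟩
  refine ⟨ψ f, ?_, ?_⟩
  · rw [SetLike.mem_coe, mem_restrictTotalDegree] at hf ⊢
    exact (hψ f).trans hf
  · rfl

theorem deg_comap {M N : ℕ} (ψ : MvPolynomial (Fin M) L →ₐ[L] MvPolynomial (Fin N) L)
    (hψ : ∀ f, (ψ f).totalDegree ≤ f.totalDegree) (I : Ideal (MvPolynomial (Fin N) L)) (d δ : ℕ)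
    (h : Deg I d δ) : Deg (I.comap ψ) d δ := by
  intro ε hε t0
  obtain ⟨t, ht, h1⟩ := h ε hε t0
  refine ⟨t, ht, le_trans ?_ h1⟩
  have := hilb_comap_le ψ hψ I t
  gcongr

theorem dim_unique {N : ℕ} {I : Ideal (MvPolynomial (Fin N) L)} {d k : ℕ} (h1 : Dim I d)
    (h2 : Dim I k) : d = k := by
  unfold Dim at h1 h2
  rw [h1] at h2
  exact_mod_cast h2

/-- the case `p = 0` -/
theorem cut0 (hPROJ : S_PROJ) (hHYPDEG : S_HYPDEG) (hDIM : S_DIM) [IsAlgClosed L] :
    ∀ (N d δ : ℕ) (P : Ideal (MvPolynomial (Fin N) L)),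
    P.IsPrime → Dim P d → Deg P d δ → (∃ h ∈ P, MvPolynomial.eval 0 h ≠ 0) →
    ∃ f ∈ P, f.totalDegree ≤ δ ∧ MvPolynomial.eval (0 : Fin N → L) f ≠ 0 := by
  intro N
  induction N with
  | zero =>
    intro d δ P hP hd _ hh
    obtain ⟨d', hd'1, hd'2, hd'3⟩ := hDIM.1 L 0 P hP
    obtain ⟨h, h1, h2⟩ := hh
    have h3 := hd'3 (by omega)
    rw [h3, Ideal.mem_bot] at h1
    rw [h1] at h2
    simp at h2
  | succ M ih =>
    intro d δ P hP hd hdeg hh
    obtain ⟨d', hd'1, hd'2, hd'3⟩ := hDIM.1 L (M + 1) P hP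
    have hdd : d' = d := dim_unique hd'2 hd
    subst hdd
    have hP0 : P ≠ ⊥ := by
      intro h0
      obtain ⟨h, h1, h2⟩ := hh
      rw [h0, Ideal.mem_bot] at h1
      rw [h1] at h2
      simp at h2
    have hdM : d' ≤ M := by
      by_contra hc
      exact hP0 (hd'3 (by omega))
    rcases Nat.lt_or_ge d' M with hlt | hge
    · obtain ⟨c, hc1, hc2⟩ := hPROJ L M d' P hP hd (by omega) hh
      set g : Fin M → MvPolynomial (Fin (M + 1)) L := fun i : Fin M =>
        ∑ j, MvPolynomial.C (c i j) * (MvPolynomial.X j : MvPolynomial (Fin (M + 1)) L) with hg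
      have hg1 : ∀ i, (g i).totalDegree ≤ 1 := by
        intro i
        refine (MvPolynomial.totalDegree_finsetSum _ _).trans (Finset.sup_le fun j _ => ?_)
        refine (MvPolynomial.totalDegree_mul _ _).trans ?_
        rw [MvPolynomial.totalDegree_C, MvPolynomial.totalDegree_X]
      have hψ := totalDegree_aeval_le g hg1
      obtain ⟨f, hf1, hf2, hf3⟩ := ih d' δ (P.comap (MvPolynomial.aeval g)) (Ideal.comap_isPrime _ _)
        hc1 (deg_comap _ hψ P d' δ hdeg) hc2
      refine ⟨MvPolynomial.aeval g f, hf1, (hψ f).trans hf2, ?_⟩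
      have h4 : MvPolynomial.eval (0 : Fin (M + 1) → L) (MvPolynomial.aeval g f) =
          MvPolynomial.eval (0 : Fin M → L) f := by
        have h5 : (MvPolynomial.eval (0 : Fin (M + 1) → L)).comp
            (MvPolynomial.aeval g : MvPolynomial (Fin M) L →ₐ[L] _).toRingHom =
            MvPolynomial.eval (0 : Fin M → L) := by
          apply MvPolynomial.ringHom_ext
          · intro r
            simp
          · intro i
            simp [hg]
        exact congrFun (congrArg DFunLike.coe h5) f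
      rw [h4]
      exact hf3
    · have hdM2 : d' = M := by omega
      subst hdM2
      obtain ⟨h, h1, h2⟩ := hh
      have hne : h ≠ 0 := by
        rintro rfl
        simp at h2
      have h3 : (UniqueFactorizationMonoid.factors h).prod ∈ P := by
        have h4 := UniqueFactorizationMonoid.factors_prod hne
        exact (Ideal.mem_iff_of_associated h4).mpr h1
      obtain ⟨F, hF1, hF2⟩ := hP.multiset_prod_mem_iff_exists_mem _ |>.mp h3
      have hFd : F ∣ h := UniqueFactorizationMonoid.dvd_of_mem_factors hF1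
      have hFp : Prime F := UniqueFactorizationMonoid.prime_of_factor F hF1
      have hFe : MvPolynomial.eval 0 F ≠ 0 := by
        intro h0
        obtain ⟨G, hG⟩ := hFd
        rw [hG, map_mul, h0, zero_mul] at h2
        exact h2 rfl
      have hSp : (Ideal.span {F} : Ideal (MvPolynomial (Fin (d' + 1)) L)).IsPrime :=
        (Ideal.span_singleton_prime hFp.ne_zero).mpr hFp
      have hle : Ideal.span {F} ≤ P := (Ideal.span_singleton_le_iff_mem _).mpr hF2
      obtain ⟨k, hk1, hk2, hk3⟩ := hDIM.1 L (d' + 1) _ hSp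
      have hkd : k ≤ d' := by
        by_contra hc
        have h5 := hk3 (by omega)
        rw [Ideal.span_singleton_eq_bot] at h5
        exact hFp.ne_zero h5
      have heq : Ideal.span {F} = P := by
        by_contra hc
        have h6 := hDIM.2 L (d' + 1) _ P hSp hP (lt_of_le_of_ne hle hc) k d' hk2 hd
        omega
      refine ⟨F, hF2, ?_, hFe⟩
      apply hHYPDEG L d' δ F hFp.ne_zero
      rw [heq]
      exact hdeg

theorem t_CUT (hPROJ : S_PROJ) (hHYPDEG : S_HYPDEG) (hDIM : S_DIM) (_hSEC : S_SEC) : S_CUT := by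
  intro L _ _ N d δ P hP hd hdeg p hp
  have hp' : ∃ h ∈ P, MvPolynomial.eval p h ≠ 0 := by
    by_contra hc
    push Not at hc
    exact hp hc
  obtain ⟨h, hh1, hh2⟩ := hp'
  set g : Fin N → MvPolynomial (Fin N) L := fun i => MvPolynomial.X i - MvPolynomial.C (p i) with hg
  set g' : Fin N → MvPolynomial (Fin N) L := fun i => MvPolynomial.X i + MvPolynomial.C (p i) with hg'
  have hg1 : ∀ i, (g i).totalDegree ≤ 1 := by
    intro i
    refine (MvPolynomial.totalDegree_sub _ _).trans ?_
    rw [MvPolynomial.totalDegree_C, MvPolynomial.totalDegree_X]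
    simp
  have hψ := totalDegree_aeval_le g hg1
  have hcomp1 : ∀ f : MvPolynomial (Fin N) L,
      MvPolynomial.aeval g (MvPolynomial.aeval g' f) = f := by
    intro f
    have h5 : (MvPolynomial.aeval g : MvPolynomial (Fin N) L →ₐ[L] _).comp
        (MvPolynomial.aeval g' : MvPolynomial (Fin N) L →ₐ[L] _) = AlgHom.id L _ := by
      apply MvPolynomial.algHom_ext
      intro i
      simp [hg, hg']
    exact congrFun (congrArg DFunLike.coe h5) f
  have hev : ∀ f : MvPolynomial (Fin N) L,
      MvPolynomial.eval p (MvPolynomial.aeval g f) = MvPolynomial.eval (0 : Fin N → L) f := by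
    intro f
    have h5 : (MvPolynomial.eval p).comp
        (MvPolynomial.aeval g : MvPolynomial (Fin N) L →ₐ[L] _).toRingHom =
        MvPolynomial.eval (0 : Fin N → L) := by
      apply MvPolynomial.ringHom_ext
      · intro r
        simp
      · intro i
        simp [hg]
    exact congrFun (congrArg DFunLike.coe h5) f
  have hdim : Dim (P.comap (MvPolynomial.aeval g : MvPolynomial (Fin N) L →ₐ[L] _)) d := by
    unfold Dim
    rw [← hd]
    have hsurj : Function.Surjective (MvPolynomial.aeval g : MvPolynomial (Fin N) L →ₐ[L] _) :=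
      fun f => ⟨MvPolynomial.aeval g' f, hcomp1 f⟩
    have hinj : Function.Injective (Ideal.quotientMapₐ P
        (MvPolynomial.aeval g : MvPolynomial (Fin N) L →ₐ[L] _) (le_refl _)) :=
      Ideal.quotientMap_injective (I := P)
        (f := ((MvPolynomial.aeval g : MvPolynomial (Fin N) L →ₐ[L] MvPolynomial (Fin N) L) :
          MvPolynomial (Fin N) L →+* MvPolynomial (Fin N) L))
    have hsur : Function.Surjective (Ideal.quotientMapₐ P
        (MvPolynomial.aeval g : MvPolynomial (Fin N) L →ₐ[L] _) (le_refl _)) := by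
      intro y
      obtain ⟨f, rfl⟩ := Ideal.Quotient.mk_surjective y
      obtain ⟨f', rfl⟩ := hsurj f
      exact ⟨Ideal.Quotient.mk _ f', rfl⟩
    exact AlgEquiv.trdeg_eq (AlgEquiv.ofBijective _ ⟨hinj, hsur⟩)
  obtain ⟨f, hf1, hf2, hf3⟩ := cut0 hPROJ hHYPDEG hDIM N d δ
    (P.comap (MvPolynomial.aeval g : MvPolynomial (Fin N) L →ₐ[L] _)) (Ideal.comap_isPrime _ _) hdim
    (deg_comap _ hψ P d δ hdeg) ⟨MvPolynomial.aeval g' h, by
      rw [Ideal.mem_comap, hcomp1]; exact hh1, by
      rw [← hev, hcomp1]; exact hh2⟩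
  exact ⟨MvPolynomial.aeval g f, hf1, (hψ f).trans hf2, by rw [hev]; exact hf3⟩

end Pool.Agent.Q137.WD
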